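import Pool.Agent.helper47.MC.G

/-!
# MC project, module W: the self-dual subgroups `W_a`
-/

set_option autoImplicit false
open Finset Classical

namespace MCut

section Wa
variable {K : Type*} [Field K] [Fintype K] [CharP K 2]

theorem W_phi0_zero (l : ℕ) : phi0 l (0 : K) = 0 := by
  have h := phi0_add l (0 : K) 0
  rw [add_zero] at h
  exact left_eq_add.mp h

theorem W_LL_zero (l T : ℕ) (a : Fin T → K) : LL l T a (0 : K) = 0 := by
  have h := LL_add l T a (0 : K) 0
  rw [add_zero] at h
  exact left_eq_add.mp h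

/-- The subgroup `W_a`. -/
def WW (l T : ℕ) (tr : K →+ ZMod 2) (a : Fin T → K) : AddSubgroup (QuadraticAlgebra K 1 1) where
  carrier := {x | tr x.im = 0 ∧ (x.re + phi0 l x.im + LL l T a x.im = 0 ∨
    x.re + phi0 l x.im + LL l T a x.im = 1)}
  add_mem' := by
    rintro x y ⟨hx, hx'⟩ ⟨hy, hy'⟩
    have h11 : (1 : K) + 1 = 0 := CharTwo.add_self_eq_zero 1
    refine ⟨by rw [QuadraticAlgebra.im_add, map_add, hx, hy, add_zero], ?_⟩
    have he : (x + y).re + phi0 l (x + y).im + LL l T a (x + y).im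
        = (x.re + phi0 l x.im + LL l T a x.im) + (y.re + phi0 l y.im + LL l T a y.im) := by
      rw [QuadraticAlgebra.im_add, QuadraticAlgebra.re_add, phi0_add, LL_add]
      ring
    rw [he]
    rcases hx' with h | h <;> rcases hy' with h' | h' <;> rw [h, h']
    · left; rw [add_zero]
    · right; rw [zero_add]
    · right; rw [add_zero]
    · left; exact h11
  zero_mem' := by
    refine ⟨by rw [QuadraticAlgebra.im_zero, map_zero], Or.inl ?_⟩
    rw [QuadraticAlgebra.im_zero, QuadraticAlgebra.re_zero, W_phi0_zero, W_LL_zero, add_zero,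
      add_zero]
  neg_mem' := by
    rintro x ⟨hx, hx'⟩
    refine ⟨by rw [QuadraticAlgebra.im_neg, map_neg, hx, neg_zero], ?_⟩
    rw [QuadraticAlgebra.im_neg, QuadraticAlgebra.re_neg, CharTwo.neg_eq, CharTwo.neg_eq]
    exact hx'

theorem W_mem (l T : ℕ) (tr : K →+ ZMod 2) (a : Fin T → K) (x : QuadraticAlgebra K 1 1) :
    x ∈ WW l T tr a ↔ tr x.im = 0 ∧ (x.re + phi0 l x.im + LL l T a x.im = 0 ∨
    x.re + phi0 l x.im + LL l T a x.im = 1) := Iff.rfl

/-- The form on the quadratic extension. -/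
def tau (tr : K →+ ZMod 2) : QuadraticAlgebra K 1 1 →+ ZMod 2 where
  toFun x := tr x.im
  map_zero' := by rw [QuadraticAlgebra.im_zero, map_zero]
  map_add' x y := by rw [QuadraticAlgebra.im_add, map_add]

omit [Fintype K] [CharP K 2] in
theorem W_tau (tr : K →+ ZMod 2) (x : QuadraticAlgebra K 1 1) : tau tr x = tr x.im := rfl

omit [Fintype K] [CharP K 2] in
theorem W_mul_im (x y : QuadraticAlgebra K 1 1) :
    (x * y).im = x.re * y.im + x.im * y.re + x.im * y.im := by
  rw [QuadraticAlgebra.im_mul]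
  ring

theorem tau_sq (l : ℕ) (tr : K →+ ZMod 2) (htr : IsTr l tr) (x : QuadraticAlgebra K 1 1) :
    tau tr (x ^ 2) = tau tr x := by
  rw [W_tau, W_tau, pow_two, W_mul_im, ← htr.sq x.im]
  congr 1
  have := CharTwo.add_self_eq_zero (x.re * x.im)
  linear_combination this

theorem tau_nt (l : ℕ) (tr : K →+ ZMod 2) (htr : IsTr l tr) : ∃ z, tau tr z ≠ 0 := by
  by_contra h
  push Not at h
  have : (1 : K) = 0 := by
    refine htr.nondeg 1 fun y => ?_
    have := h ⟨0, y⟩
    rw [W_tau] at this
    rw [one_mul]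
    exact this
  exact one_ne_zero this

theorem one_mem_WW (l T : ℕ) (tr : K →+ ZMod 2) (a : Fin T → K) : 1 ∈ WW l T tr a := by
  rw [W_mem, QuadraticAlgebra.im_one, QuadraticAlgebra.re_one, W_phi0_zero, W_LL_zero, map_zero]
  simp

theorem WW_self_dual (l T : ℕ) (hl : Odd l) (hT : T < l) (hK : Fintype.card K = 2 ^ l)
    (tr : K →+ ZMod 2) (htr : IsTr l tr) (a : Fin T → K) (x : QuadraticAlgebra K 1 1) :
    x ∈ WW l T tr a ↔ ∀ w ∈ WW l T tr a, tau tr (w * x) = 0 := by
  have h2 : (2 : K) = 0 := CharTwo.two_eq_zero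
  -- the bilinear identity: `re` part through `phi0`, `LL`
  have key : ∀ e e' : K, tr ((phi0 l e + LL l T a e) * e' + e * (phi0 l e' + LL l T a e') + e * e')
      = tr e * tr e' := by
    intro e e'
    have h1 := phi0_adj l hl hK tr htr e e'
    have h3 := LL_adj l T hT hK tr htr a e e'
    have e1 : (phi0 l e + LL l T a e) * e' + e * (phi0 l e' + LL l T a e') + e * e'
        = (phi0 l e * e' + e * phi0 l e') + (LL l T a e * e' + e * LL l T a e') + e * e' := by ring
    rw [e1, map_add, map_add, map_add tr (phi0 l e * e'), h1, map_add tr (LL l T a e * e'), h3,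
      CharTwo.add_self_eq_zero, add_zero, add_right_comm, CharTwo.add_self_eq_zero, zero_add]
  constructor
  · rintro ⟨hx, hx'⟩ w ⟨hw, hw'⟩
    rw [W_tau, W_mul_im]
    have hk := key w.im x.im
    rw [hx, hw, mul_zero] at hk
    rw [← hk]
    have hxx : ∃ ε : K, (ε = 0 ∨ ε = 1) ∧ x.re = phi0 l x.im + LL l T a x.im + ε := by
      refine ⟨x.re + phi0 l x.im + LL l T a x.im, hx', ?_⟩
      linear_combination (-(phi0 l x.im) - LL l T a x.im) * h2
    have hww : ∃ ε : K, (ε = 0 ∨ ε = 1) ∧ w.re = phi0 l w.im + LL l T a w.im + ε := by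
      refine ⟨w.re + phi0 l w.im + LL l T a w.im, hw', ?_⟩
      linear_combination (-(phi0 l w.im) - LL l T a w.im) * h2
    obtain ⟨ε, hε, hxe⟩ := hxx
    obtain ⟨δ, hδ, hwe⟩ := hww
    have e1 : w.re * x.im + w.im * x.re + w.im * x.im
        = ((phi0 l w.im + LL l T a w.im) * x.im + w.im * (phi0 l x.im + LL l T a x.im)
          + w.im * x.im) + (δ * x.im + ε * w.im) := by
      rw [hxe, hwe]; ring
    rw [e1, map_add, map_add tr (δ * x.im)]
    have hz1 : tr (δ * x.im) = 0 := by
      rcases hδ with h | h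
      · rw [h, zero_mul, map_zero]
      · rw [h, one_mul, hx]
    have hz2 : tr (ε * w.im) = 0 := by
      rcases hε with h | h
      · rw [h, zero_mul, map_zero]
      · rw [h, one_mul, hw]
    rw [hz1, hz2, add_zero, add_zero]
  · intro h
    have hx : tr x.im = 0 := by
      have := h 1 (one_mem_WW l T tr a)
      rwa [one_mul] at this
    refine ⟨hx, ?_⟩
    refine ker_dual l tr htr _ fun e he => ?_
    have hw : (⟨phi0 l e + LL l T a e, e⟩ : QuadraticAlgebra K 1 1) ∈ WW l T tr a := by
      refine ⟨he, Or.inl ?_⟩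
      show phi0 l e + LL l T a e + phi0 l e + LL l T a e = 0
      linear_combination (phi0 l e + LL l T a e) * h2
    have h1 := h _ hw
    rw [W_tau, W_mul_im] at h1
    have hk := key e x.im
    rw [hx, mul_zero] at hk
    have e1 : e * (x.re + phi0 l x.im + LL l T a x.im)
        = ((phi0 l e + LL l T a e) * x.im + e * x.re + e * x.im)
          + ((phi0 l e + LL l T a e) * x.im + e * (phi0 l x.im + LL l T a x.im) + e * x.im) := by
      linear_combination (-((phi0 l e + LL l T a e) * x.im + e * x.im)) * h2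
    rw [e1, map_add, hk, add_zero]
    exact h1
end Wa
end MCut
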