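import Pool.Agent.helper77.MC.Spec

set_option autoImplicit false

namespace Pool.Agent.helper77.MC

open Finset Numbering

theorem S1_mem {β : Type} [Fintype β] (y : β → ℝ) (c : ℝ) (m : ℕ) (J : Finset β) :
    J ∈ fam y c m ↔ (∑ i ∈ J, y i = c ∧ #J ≤ m) := by
  classical
  unfold fam
  simp

open Pool.Agent.helper72.UP in
theorem S1 : S1_stmt := by
  classical
  intro n k x u hx hu
  unfold zer
  have hp : ∀ s : Finset (Fin n), s.Nonempty → ∑ i ∈ s, x i = 0 →
      u ∈ s ∧ s.filter (fun i => x i < 0) = s.erase u := by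
    intro s hs h0
    have hneg : ∀ i, i ≠ u → x i < 0 := by
      intro i hi
      rcases lt_or_gt_of_ne (hx i) with h | h
      · exact h
      · exact absurd ((hu i).mp h) hi
    have hus : u ∈ s := by
      by_contra hn
      have h1 : ∑ i ∈ s, x i < 0 :=
        Finset.sum_neg (fun i hi => hneg i (fun h => hn (h ▸ hi))) hs
      linarith
    refine ⟨hus, ?_⟩
    ext i
    rw [Finset.mem_filter, Finset.mem_erase]
    constructor
    · rintro ⟨h1, h2⟩
      refine ⟨?_, h1⟩
      intro h3
      have h4 := (hu i).mpr h3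
      linarith
    · rintro ⟨h1, h2⟩
      exact ⟨h2, hneg i h1⟩
  refine Finset.card_le_card_of_injOn (fun s => s.subtype (fun i => x i < 0)) ?_ ?_
  · intro s hs
    have hs' : s.Nonempty ∧ #s ≤ k ∧ ∑ i ∈ s, x i = 0 := by
      simpa using hs
    obtain ⟨h1, h2, h3⟩ := hs'
    obtain ⟨hus, hE⟩ := hp s h1 h3
    have hg : s.subtype (fun i => x i < 0) ∈
        fam (fun i : {i : Fin n // x i < 0} => - x i.1) (x u) (k - 1) := by
      rw [S1_mem]
      refine ⟨?_, ?_⟩
      · have h4 : ∑ j ∈ s.subtype (fun i => x i < 0), (- x j.1) =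
            ∑ j ∈ s.filter (fun i => x i < 0), (- x j) :=
          Finset.sum_subtype_eq_sum_filter (fun i => - x i)
        rw [h4, hE, Finset.sum_neg_distrib]
        have h5 := Finset.add_sum_erase s x hus
        linarith
      · rw [Finset.card_subtype, hE, Finset.card_erase_of_mem hus]
        omega
    exact hg
  · intro s hs s' hs' h
    have a1 : s.Nonempty ∧ #s ≤ k ∧ ∑ i ∈ s, x i = 0 := by simpa using hs
    have a2 : s'.Nonempty ∧ #s' ≤ k ∧ ∑ i ∈ s', x i = 0 := by simpa using hs'
    obtain ⟨hus, hE⟩ := hp s a1.1 a1.2.2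
    obtain ⟨hus', hE'⟩ := hp s' a2.1 a2.2.2
    have h1 : s.subtype (fun i => x i < 0) = s'.subtype (fun i => x i < 0) := h
    have h2 : s.filter (fun i => x i < 0) = s'.filter (fun i => x i < 0) := by
      rw [← Finset.subtype_map, ← Finset.subtype_map, h1]
    rw [hE, hE'] at h2
    rw [← Finset.insert_erase hus, ← Finset.insert_erase hus', h2]

end Pool.Agent.helper77.MC

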