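import Pool.Agent.helper76.MC.Defs

/-! # Project MC, module C1: multiplicity functions -/

namespace Pool.Agent.helper76.MC

open Finset Pool.Agent.helper34.DH Pool.Agent.helper76.FV Pool.Agent.helper76.LP
open Pool.Agent.helper76.UR
open Matrix (SpecialLinearGroup)

/-! ### points -/

theorem C1_coe_int (n : ℤ) : (((n : ℚ)) : QZ) = 0 := by
  have h : ((n : ℚ) : QZ) = ((n • (1 : ℚ) : ℚ) : QZ) := by simp
  rw [h]
  exact (QuotientAddGroup.eq_zero_iff _).2 (AddSubgroup.mem_zmultiples_iff.2 ⟨n, rfl⟩)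

theorem C1_coe_add (a b : ℚ) : ((a + b : ℚ) : QZ) = ((a : ℚ) : QZ) + ((b : ℚ) : QZ) := rfl

theorem C1_pt_nat {m : ℕ} [NeZero m] (k : ℕ) : pt ((k : ℕ) : ZMod m) = (((k : ℚ) / m : ℚ) : QZ) := by
  have hm : (m : ℚ) ≠ 0 := by exact_mod_cast NeZero.ne m
  unfold pt
  rw [ZMod.val_natCast]
  have h1 : (k : ℚ) / m = ((k % m : ℕ) : ℚ) / m + (((k / m : ℕ) : ℤ) : ℚ) := by
    have h2 : (k : ℚ) = ((k % m : ℕ) : ℚ) + (m : ℚ) * ((k / m : ℕ) : ℚ) := by
      exact_mod_cast (Nat.mod_add_div k m).symm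
    rw [Int.cast_natCast]
    field_simp
    linarith [h2]
  rw [h1, C1_coe_add, C1_coe_int, add_zero]

theorem C1_pt_add {m : ℕ} [NeZero m] (x y : ZMod m) : pt (x + y) = pt x + pt y := by
  have h : x + y = ((x.val + y.val : ℕ) : ZMod m) := by
    push_cast
    rw [ZMod.natCast_zmod_val, ZMod.natCast_zmod_val]
  rw [h, C1_pt_nat]
  unfold pt
  rw [← C1_coe_add]
  push_cast
  rw [add_div]

theorem C1_pt_zero {m : ℕ} [NeZero m] : pt (0 : ZMod m) = 0 := by
  have h := C1_pt_add (0 : ZMod m) 0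
  rw [add_zero] at h
  exact left_eq_add.1 h

/-! ### sums of multisets -/

/-- `bind` as a homomorphism -/
def C1_bind {α β : Type*} (f : α → Multiset β) : Multiset α →+ Multiset β where
  toFun s := s.bind f
  map_zero' := Multiset.zero_bind f
  map_add' s t := Multiset.add_bind s t f

/-- `map` as a homomorphism -/
def C1_map {α β : Type*} (f : α → β) : Multiset α →+ Multiset β where
  toFun s := s.map f
  map_zero' := Multiset.map_zero f
  map_add' s t := Multiset.map_add f s t

theorem C1_map_mset {m : ℕ} [NeZero m] (e : ZMod m → ℕ) (f : QZ → QZ) :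
    (mset e).map f = ∑ x, e x • {f (pt x)} := by
  show C1_map f (mset e) = _
  unfold mset
  rw [_root_.map_sum]
  refine Finset.sum_congr rfl fun x _ => ?_
  rw [_root_.map_nsmul]
  rfl

theorem C1_bind_mset {m : ℕ} [NeZero m] (e : ZMod m → ℕ) (f : QZ → Multiset QZ) :
    (mset e).bind f = ∑ x, e x • f (pt x) := by
  show C1_bind f (mset e) = _
  unfold mset
  rw [_root_.map_sum]
  refine Finset.sum_congr rfl fun x _ => ?_
  rw [_root_.map_nsmul]
  show e x • (Multiset.bind {pt x} f) = _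
  rw [Multiset.singleton_bind]

theorem mset_conv {m : ℕ} [NeZero m] (e e' : ZMod m → ℕ) :
    mset (conv e e') = (mset e).bind fun x => (mset e').map fun y => x + y := by
  rw [C1_bind_mset]
  have h1 : ∀ y : ZMod m, e y • ((mset e').map fun z => pt y + z) =
      ∑ x, (e y * e' (x - y)) • ({pt x} : Multiset QZ) := by
    intro y
    rw [C1_map_mset, Finset.smul_sum]
    rw [← Equiv.sum_comp (Equiv.addLeft y) (fun x => (e y * e' (x - y)) • ({pt x} : Multiset QZ))]
    refine Finset.sum_congr rfl fun z _ => ?_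
    rw [← mul_nsmul']
    simp only [Equiv.coe_addLeft, add_sub_cancel_left, C1_pt_add]
  simp_rw [h1]
  rw [Finset.sum_comm]
  unfold mset conv
  refine Finset.sum_congr rfl fun x _ => ?_
  rw [Finset.sum_smul]

theorem C1_mset_add {m : ℕ} [NeZero m] (e e' : ZMod m → ℕ) :
    mset (fun x => e x + e' x) = mset e + mset e' := by
  unfold mset
  rw [← Finset.sum_add_distrib]
  exact Finset.sum_congr rfl fun x _ => add_nsmul _ _ _

theorem C1_mset_single {m : ℕ} [NeZero m] (a : ZMod m) :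
    mset (fun x => if x = a then 1 else 0) = {pt a} := by
  unfold mset
  rw [Finset.sum_eq_single a]
  · simp
  · intro b _ hb
    show (if b = a then 1 else 0) • ({pt b} : Multiset QZ) = 0
    rw [if_neg hb, zero_nsmul]
  · intro h
    exact absurd (Finset.mem_univ a) h

theorem C1_mset_card {m : ℕ} [NeZero m] (S : Finset ℕ) (g : ℕ → ZMod m) :
    mset (fun x => (S.filter fun k => g k = x).card) = ∑ k ∈ S, {pt (g k)} := by
  unfold mset
  have h1 : ∀ x : ZMod m, (S.filter fun k => g k = x).card • ({pt x} : Multiset QZ) =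
      ∑ k ∈ S, if g k = x then {pt x} else 0 := by
    intro x
    rw [← Finset.sum_filter, Finset.sum_const]
  simp_rw [h1]
  rw [Finset.sum_comm]
  refine Finset.sum_congr rfl fun k _ => ?_
  rw [Finset.sum_ite_eq]
  simp

theorem C1_vp (m p : ℕ) [NeZero m] [Fact p.Prime] (h : p ∣ m) :
    mset (vp m p) = {0} + ∑ k ∈ (Finset.range p).filter (fun k : ℕ =>
    k ≠ 0 ∧ (∃ c ∈ Finset.range p, (c * c) % p = k)), {(((k : ℚ) / p : ℚ) : QZ)} := by
  have h1 : vp m p = fun x => (if x = 0 then 1 else 0) +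
      (((Finset.range p).filter (fun k : ℕ =>
        k ≠ 0 ∧ (∃ c ∈ Finset.range p, (c * c) % p = k))).filter
        fun k => ((k * (m / p) : ℕ) : ZMod m) = x).card := by
    funext x
    unfold vp
    congr 2
    ext k
    simp only [Finset.mem_filter]
    tauto
  rw [h1, C1_mset_add, C1_mset_single, C1_pt_zero, C1_mset_card]
  congr 1
  refine Finset.sum_congr rfl fun k _ => ?_
  rw [C1_pt_nat]
  congr 2
  have hm : (m : ℚ) ≠ 0 := by exact_mod_cast NeZero.ne m
  have hp : (p : ℚ) ≠ 0 := by exact_mod_cast (Fact.out : p.Prime).ne_zero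
  obtain ⟨q, rfl⟩ := h
  have hq : 0 < p := (Fact.out : p.Prime).pos
  rw [Nat.mul_div_cancel_left q hq]
  push_cast at hm ⊢
  have hq' : (q : ℚ) ≠ 0 := fun e => hm (by rw [e, mul_zero])
  field_simp

theorem mset_vp (m p : ℕ) [NeZero m] [Fact p.Prime] (h : p ∣ m) :
    mset (vp m p) = mset (vp p p) := by
  rw [C1_vp m p h, C1_vp p p dvd_rfl]

theorem mset_kp (m : ℕ) [NeZero m] (h : 4 ∣ m) : mset (kp m) = {((1 / 4 : ℚ) : QZ)} := by
  unfold kp
  rw [C1_mset_single]
  unfold LP.emb
  rw [C1_pt_nat]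
  congr 2
  have hm : (m : ℚ) ≠ 0 := by exact_mod_cast NeZero.ne m
  obtain ⟨q, rfl⟩ := h
  have h1 : (1 : ZMod 4).val = 1 := rfl
  rw [h1, one_mul, Nat.mul_div_cancel_left q (by norm_num)]
  push_cast at hm ⊢
  have hq' : (q : ℚ) ≠ 0 := fun e => hm (by rw [e, mul_zero])
  field_simp

theorem pat_cf_of
    (hT : ∀ {N : ℕ} {σ τ : ℂ} {s t : Multiset QZ}, CongRep N σ s → CongRep N τ t →
      CongRep N (σ * τ) (s.bind fun x => t.map fun y => x + y))
    (hI : ∀ {N M : ℕ}, N ∣ M → ∀ {σ : ℂ} {s : Multiset QZ}, CongRep N σ s → CongRep M σ s)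
    (hZ : ∀ N : ℕ, CongRep N 1 {0})
    (hV : ∀ (p : ℕ) [Fact p.Prime], p ≠ 2 →
      CongRep p ((quadraticChar (ZMod p) (-1) : ℤ) : ℂ) (mset (vp p p)))
    (hK : CongRep 4 (-1) {((1 / 4 : ℚ) : QZ)})
    (m : ℕ) [NeZero m] (four : Bool) (h4 : four = true → 4 ∣ m) (R : List ℕ)
    (hR : ∀ p ∈ R, p.Prime ∧ p % 4 = 3 ∧ p ∣ m) :
    CF m ((-1 : ℂ) ^ (R.length + (if four then 1 else 0))) (pat m four R) := by
  induction R with
  | nil =>
    cases four with
    | true =>
      have h1 : CongRep m (-1) (mset (kp m)) := by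
        rw [mset_kp m (h4 rfl)]
        exact hI (h4 rfl) hK
      simpa [CF, pat] using h1
    | false =>
      have h1 : CongRep m 1 (mset (fun x : ZMod m => if x = 0 then 1 else 0)) := by
        rw [C1_mset_single, C1_pt_zero]
        exact hZ m
      simpa [CF, pat] using h1
  | cons p R ih =>
    obtain ⟨hp, hp4, hpm⟩ := hR p List.mem_cons_self
    have : Fact p.Prime := ⟨hp⟩
    have hp2 : p ≠ 2 := by
      rintro rfl
      norm_num at hp4
    have h1 : CongRep m (-1) (mset (vp m p)) := by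
      rw [mset_vp m p hpm]
      have h2 := hV p hp2
      have h3 : quadraticChar (ZMod p) (-1) = -1 := by
        rw [quadraticChar_neg_one (by rw [ZMod.ringChar_zmod_n]; exact hp2), ZMod.card]
        exact ZMod.χ₄_nat_three_mod_four hp4
      rw [h3] at h2
      have h4 : (((-1 : ℤ)) : ℂ) = -1 := by norm_num
      rw [h4] at h2
      exact hI hpm h2
    have h2 := ih (fun q hq => hR q (List.mem_cons_of_mem _ hq))
    have h3 : CongRep m (-1 * (-1 : ℂ) ^ (R.length + (if four then 1 else 0)))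
        (mset (conv (vp m p) (pat m four R))) := by
      rw [mset_conv]
      exact hT h1 h2
    show CongRep m _ (mset (conv (vp m p) (pat m four R)))
    rw [List.length_cons]
    have h5 : (-1 : ℂ) ^ (R.length + 1 + (if four then 1 else 0)) =
        -1 * (-1 : ℂ) ^ (R.length + (if four then 1 else 0)) := by
      rw [← pow_succ']
      congr 1
      ring
    rw [h5]
    exact h3

end Pool.Agent.helper76.MC
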