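import Pool.Agent.helper76.MC.Defs

/-! # Project MC, module PA: iterated sums and differences of products -/

namespace Pool.Agent.helper76.MC

theorem PA_map_inv {G ι : Type*} [CommGroup G] (M : List ι) (i : ι) (hi : i ∉ M) (ν : ι → G)
    (φ : ι → G → ℤ) (h : ∀ p ∈ M, i ≠ p → ∀ z, φ p (ν i * z) = φ p z) (z : G) :
    (M.map fun p => φ p (ν i * z)) = M.map fun p => φ p z := by
  apply List.map_congr_left
  intro p hp
  exact h p hp (fun e => hi (e ▸ hp)) z

theorem PA_par {G ι : Type*} [CommGroup G] (L' : List ι) (ν : ι → G)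
    (φ : ι → G → ℤ) : ∀ (L : List ι), (L ++ L').Nodup →
    (∀ p ∈ L ++ L', ∀ q ∈ L ++ L', q ≠ p → ∀ z, φ p (ν q * z) = φ p z) →
    ∀ (g : G → ℤ), (∀ q ∈ L, ∀ z, g (ν q * z) = g z) → ∀ z : G,
    par ν L (fun z => g z * ((L ++ L').map fun p => φ p z).prod) z =
      g z * ((L.map fun p => φ p (ν p * z) + φ p z).prod * (L'.map fun p => φ p z).prod) := by
  intro L
  induction L with
  | nil => intro _ _ g _ z; simp [par]
  | cons i L ih =>
    intro hnd h g hg z
    have hnd' : (L ++ L').Nodup := (List.nodup_cons.1 hnd).2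
    have hi : i ∉ L ++ L' := (List.nodup_cons.1 hnd).1
    have e1 : ∀ x : G, (fun x => (fun z => g z * ((i :: L ++ L').map fun p => φ p z).prod) (ν i * x)
        + (fun z => g z * ((i :: L ++ L').map fun p => φ p z).prod) x) x =
        (g x * (φ i (ν i * x) + φ i x)) * ((L ++ L').map fun p => φ p x).prod := by
      intro x
      have e2 := PA_map_inv (L ++ L') i hi ν φ (fun p hp hip z =>
        h p (List.mem_cons_of_mem _ hp) i List.mem_cons_self hip z) x
      simp only [List.cons_append, List.map_cons, List.prod_cons]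
      rw [e2, hg i List.mem_cons_self]
      ring
    have e3 : par ν (i :: L) (fun z => g z * ((i :: L ++ L').map fun p => φ p z).prod) z =
        par ν L (fun x => (g x * (φ i (ν i * x) + φ i x)) *
          ((L ++ L').map fun p => φ p x).prod) z := by
      show par ν L _ z = _
      congr 1
      funext x
      exact e1 x
    rw [e3, ih hnd' (fun p hp q hq => h p (List.mem_cons_of_mem _ hp) q (List.mem_cons_of_mem _ hq))
      (fun x => g x * (φ i (ν i * x) + φ i x))]
    · simp only [List.map_cons, List.prod_cons]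
      ring
    · intro q hq x
      have hqi : q ≠ i := fun e => hi (List.mem_append_left _ (e ▸ hq))
      have hq' : q ∈ i :: L ++ L' := List.mem_cons_of_mem _ (List.mem_append_left _ hq)
      have hii : i ∈ i :: L ++ L' := List.mem_cons_self
      show g (ν q * x) * (φ i (ν i * (ν q * x)) + φ i (ν q * x)) = _
      rw [hg q (List.mem_cons_of_mem _ hq), mul_left_comm (ν i) (ν q) x, h i hii q hq' hqi,
        h i hii q hq' hqi]

theorem PA_mdf {G ι : Type*} [CommGroup G] (L' : List ι) (ν : ι → G)
    (φ : ι → G → ℤ) : ∀ (L : List ι), (L ++ L').Nodup →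
    (∀ p ∈ L ++ L', ∀ q ∈ L ++ L', q ≠ p → ∀ z, φ p (ν q * z) = φ p z) →
    ∀ (g : G → ℤ), (∀ q ∈ L, ∀ z, g (ν q * z) = g z) → ∀ z : G,
    mdf ν L (fun z => g z * ((L ++ L').map fun p => φ p z).prod) z =
      g z * ((L.map fun p => φ p (ν p * z) - φ p z).prod * (L'.map fun p => φ p z).prod) := by
  intro L
  induction L with
  | nil => intro _ _ g _ z; simp [mdf]
  | cons i L ih =>
    intro hnd h g hg z
    have hnd' : (L ++ L').Nodup := (List.nodup_cons.1 hnd).2
    have hi : i ∉ L ++ L' := (List.nodup_cons.1 hnd).1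
    have e1 : ∀ x : G, (fun x => (fun z => g z * ((i :: L ++ L').map fun p => φ p z).prod) (ν i * x)
        - (fun z => g z * ((i :: L ++ L').map fun p => φ p z).prod) x) x =
        (g x * (φ i (ν i * x) - φ i x)) * ((L ++ L').map fun p => φ p x).prod := by
      intro x
      have e2 := PA_map_inv (L ++ L') i hi ν φ (fun p hp hip z =>
        h p (List.mem_cons_of_mem _ hp) i List.mem_cons_self hip z) x
      simp only [List.cons_append, List.map_cons, List.prod_cons]
      rw [e2, hg i List.mem_cons_self]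
      ring
    have e3 : mdf ν (i :: L) (fun z => g z * ((i :: L ++ L').map fun p => φ p z).prod) z =
        mdf ν L (fun x => (g x * (φ i (ν i * x) - φ i x)) *
          ((L ++ L').map fun p => φ p x).prod) z := by
      show mdf ν L _ z = _
      congr 1
      funext x
      exact e1 x
    rw [e3, ih hnd' (fun p hp q hq => h p (List.mem_cons_of_mem _ hp) q (List.mem_cons_of_mem _ hq))
      (fun x => g x * (φ i (ν i * x) - φ i x))]
    · simp only [List.map_cons, List.prod_cons]
      ring
    · intro q hq x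
      have hqi : q ≠ i := fun e => hi (List.mem_append_left _ (e ▸ hq))
      have hq' : q ∈ i :: L ++ L' := List.mem_cons_of_mem _ (List.mem_append_left _ hq)
      have hii : i ∈ i :: L ++ L' := List.mem_cons_self
      show g (ν q * x) * (φ i (ν i * (ν q * x)) - φ i (ν q * x)) = _
      rw [hg q (List.mem_cons_of_mem _ hq), mul_left_comm (ν i) (ν q) x, h i hii q hq' hqi,
        h i hii q hq' hqi]

theorem par_prod {G ι : Type*} [CommGroup G] (L L' : List ι) (hnd : (L ++ L').Nodup) (ν : ι → G)
    (φ : ι → G → ℤ) (h : ∀ p ∈ L ++ L', ∀ q ∈ L ++ L', q ≠ p → ∀ z, φ p (ν q * z) = φ p z)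
    (z : G) : par ν L (fun z => ((L ++ L').map fun p => φ p z).prod) z =
      (L.map fun p => φ p (ν p * z) + φ p z).prod * (L'.map fun p => φ p z).prod := by
  have := PA_par L' ν φ L hnd h (fun _ => 1) (fun _ _ _ => rfl) z
  simpa only [one_mul] using this

theorem mdf_prod {G ι : Type*} [CommGroup G] (L L' : List ι) (hnd : (L ++ L').Nodup) (ν : ι → G)
    (φ : ι → G → ℤ) (h : ∀ p ∈ L ++ L', ∀ q ∈ L ++ L', q ≠ p → ∀ z, φ p (ν q * z) = φ p z)
    (z : G) : mdf ν L (fun z => ((L ++ L').map fun p => φ p z).prod) z =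
      (L.map fun p => φ p (ν p * z) - φ p z).prod * (L'.map fun p => φ p z).prod := by
  have := PA_mdf L' ν φ L hnd h (fun _ => 1) (fun _ _ _ => rfl) z
  simpa only [one_mul] using this

end Pool.Agent.helper76.MC
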