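import Pool.Agent.helper79.MC.Base

/-!
# MC project, module A: at most 4 points with two prescribed sums
-/

set_option autoImplicit false
open Finset Classical

namespace MCut

section A
variable {F : Type*} [Field F]

/-- The right-hand side `Phi` (times `(A.1+B.1)^2`). -/
def A_rhs (A B : F × F) (e u : F) : F :=
  e * (u + A.1) ^ 2 * (u + B.1) ^ 2 + (A.2 + A.1 * (u + A.1)) * (u + B.1) ^ 2
    + (B.2 + B.1 * (u + B.1)) * (u + A.1) ^ 2

theorem A_eq [CharP F 2] (A B P : F × F) (e : F) (hA : P.1 ≠ A.1) (hB : P.1 ≠ B.1)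
    (h : gg P A + gg P B = e) : P.2 * (A.1 + B.1) ^ 2 = A_rhs A B e P.1 := by
  have h2 : (2 : F) = 0 := CharTwo.two_eq_zero
  have hneA : P.1 + A.1 ≠ 0 := add_ne_zero_of_ne hA
  have hneB : P.1 + B.1 ≠ 0 := add_ne_zero_of_ne hB
  unfold gg at h
  rw [div_add_div _ _ (pow_ne_zero 2 hneA) (pow_ne_zero 2 hneB),
    div_eq_iff (mul_ne_zero (pow_ne_zero 2 hneA) (pow_ne_zero 2 hneB))] at h
  unfold A_rhs
  obtain ⟨u, b⟩ := P
  obtain ⟨a1, a2⟩ := A
  obtain ⟨b1, b2⟩ := B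
  simp only at *
  linear_combination h - (b * (u ^ 2 + u * b1 + u * a1 - a1 * b1)
    + (a2 + a1 * (u + a1)) * (u + b1) ^ 2 + (b2 + b1 * (u + b1)) * (u + a1) ^ 2) * h2

theorem A_rhs_eq [CharP F 2] (A B : F × F) (e u : F) :
    A_rhs A B e u = e * u ^ 4 + (A.1 + B.1) * u ^ 3
      + (e * (A.1 ^ 2 + B.1 ^ 2) + (A.2 + A.1 ^ 2) + (B.2 + B.1 ^ 2)) * u ^ 2
      + (A.1 * B.1 ^ 2 + B.1 * A.1 ^ 2) * u
      + (e * A.1 ^ 2 * B.1 ^ 2 + (A.2 + A.1 ^ 2) * B.1 ^ 2 + (B.2 + B.1 ^ 2) * A.1 ^ 2) := by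
  unfold A_rhs
  simp only [CharTwo.add_sq]
  ring

open Polynomial in
/-- The polynomial of degree at most 4. -/
noncomputable def A_pol (A B : F × F) (e : F) : F[X] :=
  C e * X ^ 4 + C (A.1 + B.1) * X ^ 3
      + C (e * (A.1 ^ 2 + B.1 ^ 2) + (A.2 + A.1 ^ 2) + (B.2 + B.1 ^ 2)) * X ^ 2
      + C (A.1 * B.1 ^ 2 + B.1 * A.1 ^ 2) * X
      + C (e * A.1 ^ 2 * B.1 ^ 2 + (A.2 + A.1 ^ 2) * B.1 ^ 2 + (B.2 + B.1 ^ 2) * A.1 ^ 2)

theorem A_pol_eval [CharP F 2] (A B : F × F) (e u : F) : (A_pol A B e).eval u = A_rhs A B e u := by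
  rw [A_rhs_eq, A_pol]
  simp only [Polynomial.eval_add, Polynomial.eval_mul, Polynomial.eval_C, Polynomial.eval_pow,
    Polynomial.eval_X]

theorem A_pol_deg (A B : F × F) (e : F) : (A_pol A B e).natDegree ≤ 4 := by
  rw [A_pol]
  compute_degree

theorem A_pol_coeff (A B : F × F) (e : F) : (A_pol A B e).coeff 3 = A.1 + B.1 := by
  rw [A_pol]
  simp only [Polynomial.coeff_add, Polynomial.coeff_C_mul, Polynomial.coeff_X_pow,
    Polynomial.coeff_X, Polynomial.coeff_C]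
  norm_num

variable [Fintype F] [CharP F 2]

/-- `β` is determined by `u`, and `u` is a root of a nonzero polynomial of degree `≤ 4`. -/
theorem key_count (A B C : F × F) (hAB : A.1 ≠ B.1) (hAC : A.1 ≠ C.1) (hBC : B.1 ≠ C.1) (e e' : F) :
    (univ.filter (fun P : F × F => P.1 ≠ A.1 ∧ P.1 ≠ B.1 ∧ P.1 ≠ C.1 ∧
      gg P A + gg P B = e ∧ gg P A + gg P C = e')).card ≤ 4 := by
  have hneAB : A.1 + B.1 ≠ 0 := add_ne_zero_of_ne hAB
  have hneAC : A.1 + C.1 ≠ 0 := add_ne_zero_of_ne hAC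
  have hneBC : B.1 + C.1 ≠ 0 := add_ne_zero_of_ne hBC
  have h2 : (2 : F) = 0 := CharTwo.two_eq_zero
  set p : Polynomial F := Polynomial.C ((A.1 + C.1) ^ 2) * A_pol A B e
    - Polynomial.C ((A.1 + B.1) ^ 2) * A_pol A C e' with hp
  have hpc : p.coeff 3 ≠ 0 := by
    rw [hp, Polynomial.coeff_sub, Polynomial.coeff_C_mul, Polynomial.coeff_C_mul, A_pol_coeff,
      A_pol_coeff]
    have : (A.1 + C.1) ^ 2 * (A.1 + B.1) - (A.1 + B.1) ^ 2 * (A.1 + C.1)
        = (A.1 + C.1) * (A.1 + B.1) * (B.1 + C.1) := by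
      linear_combination (-(A.1 + C.1) * (A.1 + B.1) * B.1) * h2
    rw [this]
    exact mul_ne_zero (mul_ne_zero hneAC hneAB) hneBC
  have hp0 : p ≠ 0 := fun h => hpc (by rw [h]; simp)
  have hpd : p.natDegree ≤ 4 := by
    rw [hp]
    refine (Polynomial.natDegree_sub_le _ _).trans (max_le ?_ ?_)
    · exact (Polynomial.natDegree_C_mul_le _ _).trans (A_pol_deg _ _ _)
    · exact (Polynomial.natDegree_C_mul_le _ _).trans (A_pol_deg _ _ _)
  calc _ ≤ p.roots.toFinset.card := by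
        refine Finset.card_le_card_of_injOn Prod.fst ?_ ?_
        · intro P hP
          simp only [coe_filter, mem_univ, true_and, Set.mem_ofPred_eq] at hP
          obtain ⟨hA, hB, hC, h1, h3⟩ := hP
          simp only [Finset.mem_coe, Multiset.mem_toFinset]
          rw [Polynomial.mem_roots hp0, Polynomial.IsRoot.def, hp, Polynomial.eval_sub,
            Polynomial.eval_mul, Polynomial.eval_mul, Polynomial.eval_C, Polynomial.eval_C,
            A_pol_eval, A_pol_eval, ← A_eq A B P e hA hB h1, ← A_eq A C P e' hA hC h3]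
          ring
        · intro P hP R hR hPR
          simp only [coe_filter, mem_univ, true_and, Set.mem_ofPred_eq] at hP hR
          obtain ⟨hA, hB, hC, h1, h3⟩ := hP
          obtain ⟨hA', hB', hC', h1', h3'⟩ := hR
          have e1 := A_eq A B P e hA hB h1
          have e2 := A_eq A B R e hA' hB' h1'
          rw [← hPR, ← e1] at e2
          exact Prod.ext hPR (mul_right_cancel₀ (pow_ne_zero 2 hneAB) e2).symm
    _ ≤ p.roots.card := Multiset.toFinset_card_le _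
    _ ≤ p.natDegree := Polynomial.card_roots' p
    _ ≤ 4 := hpd
end A
end MCut
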